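import Pool.Agent.H62.PR.Par0
import Pool.Graph.R_pool_sql_team_seeded_63374d34.N922.PQ.Def

/-!
Project PR (helper62), part BOXD: few curves between two boxes. By helper29.
-/

set_option autoImplicit false
set_option linter.all false

open scoped Classical

namespace Pool.Agent.H29.PR.BoxD

open Pool.Agent.N922.PQ Pool.Agent.H62.PR

lemma cnt {M u v : ℤ} (hM : 0 < M) (huv : u ≤ v) (F : Finset ℤ) (h1 : F ⊆ Finset.Ioc u v)
    (h2 : ∀ x ∈ F, ∀ y ∈ F, M ∣ x - y) : (F.card : ℝ) * (M : ℝ) ≤ ((v : ℝ) - u) + M := by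
  have hMr : (0 : ℝ) < M := by exact_mod_cast hM
  have huvr : (u : ℝ) ≤ v := by exact_mod_cast huv
  rcases F.eq_empty_or_nonempty with rfl | ⟨w, hw⟩
  · simp only [Finset.card_empty, Nat.cast_zero, zero_mul]
    linarith
  have hsub : F ⊆ (Finset.Ioc u v).filter (fun x => x ≡ w [ZMOD M]) := by
    intro x hx
    rw [Finset.mem_filter]
    refine ⟨h1 hx, ?_⟩
    rw [Int.modEq_iff_dvd]
    exact h2 w hw x hx
  have hc := Finset.card_le_card hsub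
  have hc2 := Int.Ioc_filter_modEq_card u v hM w
  have h3 : ((((Finset.Ioc u v).filter (fun x => x ≡ w [ZMOD M])).card : ℤ) : ℚ) * M ≤
      ((v : ℚ) - u) + M := by
    rw [hc2]
    have hMq : (0 : ℚ) < M := by exact_mod_cast hM
    have huvq : (u : ℚ) ≤ v := by exact_mod_cast huv
    have e1 := Int.floor_le (((v : ℚ) - w) / M)
    have e2 := Int.lt_floor_add_one (((u : ℚ) - w) / M)
    have e3 : ((v : ℚ) - w) / M * M = v - w := div_mul_cancel₀ _ hMq.ne'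
    have e4 : ((u : ℚ) - w) / M * M = u - w := div_mul_cancel₀ _ hMq.ne'
    push_cast
    rw [max_mul_of_nonneg _ _ hMq.le]
    refine max_le ?_ (by linarith)
    nlinarith
  have h4 : ((((Finset.Ioc u v).filter (fun x => x ≡ w [ZMOD M])).card : ℕ) : ℝ) * M ≤
      ((v : ℝ) - u) + M := by exact_mod_cast h3
  have h5 : (F.card : ℝ) ≤ (((Finset.Ioc u v).filter (fun x => x ≡ w [ZMOD M])).card : ℕ) := by
    exact_mod_cast hc
  nlinarith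

lemma prod_dvd {S : Finset ℤ} (hS : ∀ Q ∈ S, IsPr Q) {n : ℤ} (h : ∀ Q ∈ S, Q ∣ n) :
    (∏ Q ∈ S, Q) ∣ n := by
  apply Finset.prod_dvd_of_coprime
  · intro Q hQ Q' hQ' hne
    have h1 := Int.prime_iff_natAbs_prime.1 (hS Q hQ).2
    have h2 := Int.prime_iff_natAbs_prime.1 (hS Q' hQ').2
    have c1 : ((Q.natAbs : ℕ) : ℤ) = Q := Int.natAbs_of_nonneg (hS Q hQ).1.le
    have c2 : ((Q'.natAbs : ℕ) : ℤ) = Q' := Int.natAbs_of_nonneg (hS Q' hQ').1.le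
    show IsCoprime Q Q'
    rw [← c1, ← c2, Nat.isCoprime_iff_coprime, Nat.coprime_primes h1 h2]
    intro he
    apply hne
    rw [← c1, ← c2, he]
  · exact h

theorem boxd : S_BOXD := by
  refine ⟨25, by norm_num, ?_⟩
  intro S s hS η hη hη1
  set M : ℤ := ∏ Q ∈ S, Q with hMdef
  have hpr : ∀ Q ∈ S, IsPr Q := fun Q hQ => (hS Q hQ).1
  have hM : 0 < M := Finset.prod_pos fun Q hQ => (hpr Q hQ).1
  have hMr : (0 : ℝ) < M := by exact_mod_cast hM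
  have hMM : (∏ Q ∈ S, (Q : ℝ) ^ 2) = (M : ℝ) ^ 2 := by
    rw [Finset.prod_pow, hMdef]
    push_cast
    rfl
  obtain ⟨X₀, hX₀⟩ := exists_nat_gt (((M : ℝ) + 1) / η)
  refine ⟨X₀ + 1, ?_⟩
  intro X hX Y hY1 hY2 T A B
  have hXr : ((M : ℝ) + 1) / η ≤ X := by
    refine hX₀.le.trans ?_
    have : X₀ ≤ X := by omega
    exact_mod_cast this
  rw [div_le_iff₀ hη] at hXr
  have hX1 : (1 : ℝ) ≤ X := by
    have : 1 ≤ X := by omega
    exact_mod_cast this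
  have hYr : (Y : ℝ) ≤ X := by exact_mod_cast hY2
  have hY0 : (0 : ℝ) ≤ Y := Nat.cast_nonneg Y
  set A1 : Finset ℤ := (Finset.Ioc ((Y : ℤ) ^ 2) ((X : ℤ) ^ 2)).filter (fun a => ∀ Q ∈ S, Q ∣ a - s Q)
    with hA1
  set A2 : Finset ℤ := (Finset.Ioc (0 : ℤ) ((X : ℤ) ^ 2)).filter (fun a => ∀ Q ∈ S, Q ∣ a - s Q)
    with hA2
  set B1 : Finset ℤ := (Finset.Ioc (-(X : ℤ) ^ 3 - 1) ((X : ℤ) ^ 3)).filter (fun b => ∀ Q ∈ S, Q ∣ b)
    with hB1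
  set B2 : Finset ℤ := (Finset.Ioc ((Y : ℤ) ^ 3) ((X : ℤ) ^ 3)).filter (fun b => ∀ Q ∈ S, Q ∣ b)
    with hB2
  set B3 : Finset ℤ := (Finset.Ioc (-(X : ℤ) ^ 3 - 1) (-(Y : ℤ) ^ 3 - 1)).filter
    (fun b => ∀ Q ∈ S, Q ∣ b) with hB3
  have hYX : (Y : ℤ) ≤ X := by exact_mod_cast hY2
  have hY0' : (0 : ℤ) ≤ Y := by positivity
  have hX0' : (0 : ℤ) ≤ X := by positivity
  have p2 : (Y : ℤ) ^ 2 ≤ (X : ℤ) ^ 2 := pow_le_pow_left₀ hY0' hYX 2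
  have p3 : (Y : ℤ) ^ 3 ≤ (X : ℤ) ^ 3 := pow_le_pow_left₀ hY0' hYX 3
  have px2 : (0 : ℤ) ≤ (X : ℤ) ^ 2 := by positivity
  have px3 : (0 : ℤ) ≤ (X : ℤ) ^ 3 := by positivity
  have hdA : ∀ a a' : ℤ, (∀ Q ∈ S, Q ∣ a - s Q) → (∀ Q ∈ S, Q ∣ a' - s Q) → M ∣ a - a' := by
    intro a a' h h'
    refine prod_dvd hpr fun Q hQ => ?_
    have := dvd_sub (h Q hQ) (h' Q hQ)
    simpa using this
  have hdB : ∀ b b' : ℤ, (∀ Q ∈ S, Q ∣ b) → (∀ Q ∈ S, Q ∣ b') → M ∣ b - b' := by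
    intro b b' h h'
    exact prod_dvd hpr fun Q hQ => dvd_sub (h Q hQ) (h' Q hQ)
  have cA1 := cnt hM p2 A1 (Finset.filter_subset _ _) (fun x hx y hy =>
    hdA x y (Finset.mem_filter.1 hx).2 (Finset.mem_filter.1 hy).2)
  have cA2 := cnt hM px2 A2 (Finset.filter_subset _ _) (fun x hx y hy =>
    hdA x y (Finset.mem_filter.1 hx).2 (Finset.mem_filter.1 hy).2)
  have cB1 := cnt hM (by linarith) B1 (Finset.filter_subset _ _) (fun x hx y hy =>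
    hdB x y (Finset.mem_filter.1 hx).2 (Finset.mem_filter.1 hy).2)
  have cB2 := cnt hM p3 B2 (Finset.filter_subset _ _) (fun x hx y hy =>
    hdB x y (Finset.mem_filter.1 hx).2 (Finset.mem_filter.1 hy).2)
  have cB3 := cnt hM (by linarith) B3 (Finset.filter_subset _ _) (fun x hx y hy =>
    hdB x y (Finset.mem_filter.1 hx).2 (Finset.mem_filter.1 hy).2)
  push_cast at cA1 cA2 cB1 cB2 cB3
  have hsub : {p : ℤ × ℤ | Fam X S s T A B p.1 p.2 ∧ ¬ (p.1 ≤ (Y : ℤ) ^ 2 ∧ |p.2| ≤ (Y : ℤ) ^ 3)} ⊆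
      ((A1 ×ˢ B1 ∪ (A2 ×ˢ B2 ∪ A2 ×ˢ B3) : Finset (ℤ × ℤ)) : Set (ℤ × ℤ)) := by
    rintro ⟨a, b⟩ ⟨hF, hn⟩
    simp only at hF hn
    have hab := abs_le.1 hF.db
    rw [Finset.mem_coe, Finset.mem_union, Finset.mem_union, Finset.mem_product, Finset.mem_product,
      Finset.mem_product]
    simp only [hA1, hA2, hB1, hB2, hB3, Finset.mem_filter, Finset.mem_Ioc]
    by_cases h1 : a ≤ (Y : ℤ) ^ 2
    · right
      have h2 : ¬ |b| ≤ (Y : ℤ) ^ 3 := fun h => hn ⟨h1, h⟩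
      rw [abs_le, not_and_or, not_le, not_le] at h2
      rcases h2 with h2 | h2
      · right
        exact ⟨⟨⟨hF.pa, hF.da⟩, hF.ra⟩, ⟨by linarith, by linarith⟩, hF.rb⟩
      · left
        exact ⟨⟨⟨hF.pa, hF.da⟩, hF.ra⟩, ⟨h2, hab.2⟩, hF.rb⟩
    · left
      rw [not_le] at h1
      exact ⟨⟨⟨h1, hF.da⟩, hF.ra⟩, ⟨by linarith, hab.2⟩, hF.rb⟩
  have hcard := Set.ncard_le_ncard hsub (Finset.finite_toSet _)
  rw [Set.ncard_coe_finset] at hcard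
  have hc2 : (A1 ×ˢ B1 ∪ (A2 ×ˢ B2 ∪ A2 ×ˢ B3) : Finset (ℤ × ℤ)).card ≤
      A1.card * B1.card + (A2.card * B2.card + A2.card * B3.card) := by
    refine (Finset.card_union_le _ _).trans ?_
    refine add_le_add (Finset.card_product _ _).le ?_
    refine (Finset.card_union_le _ _).trans ?_
    exact add_le_add (Finset.card_product _ _).le (Finset.card_product _ _).le
  have hc3 : (({p : ℤ × ℤ | Fam X S s T A B p.1 p.2 ∧
      ¬ (p.1 ≤ (Y : ℤ) ^ 2 ∧ |p.2| ≤ (Y : ℤ) ^ 3)}.ncard : ℕ) : ℝ) ≤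
      A1.card * B1.card + (A2.card * B2.card + A2.card * B3.card) := by
    exact_mod_cast hcard.trans hc2
  rw [hMM]
  -- real estimates
  have hηX : (M : ℝ) + 1 ≤ η * X := by linarith
  have hX2 : (X : ℝ) ≤ (X : ℝ) ^ 2 := by nlinarith
  have hX3 : (X : ℝ) ^ 2 ≤ (X : ℝ) ^ 3 := by nlinarith [sq_nonneg (X : ℝ)]
  have hM2 : (M : ℝ) + 1 ≤ η * (X : ℝ) ^ 2 := hηX.trans (mul_le_mul_of_nonneg_left hX2 hη.le)
  have hM3 : (M : ℝ) + 1 ≤ η * (X : ℝ) ^ 3 := hM2.trans (mul_le_mul_of_nonneg_left hX3 hη.le)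
  have hXp2 : (0 : ℝ) ≤ (X : ℝ) ^ 2 := by positivity
  have hXp3 : (0 : ℝ) ≤ (X : ℝ) ^ 3 := by positivity
  have hd2 : (X : ℝ) ^ 2 - (Y : ℝ) ^ 2 ≤ 2 * η * (X : ℝ) ^ 2 := by
    have h1 : ((1 - η) * (X : ℝ)) ^ 2 ≤ (Y : ℝ) ^ 2 :=
      pow_le_pow_left₀ (mul_nonneg (by linarith) (by linarith)) hY1 2
    have h2 : ((1 - η) * (X : ℝ)) ^ 2 = (1 - 2 * η + η ^ 2) * (X : ℝ) ^ 2 := by ring
    rw [h2] at h1
    have h3 : 0 ≤ η ^ 2 * (X : ℝ) ^ 2 := by positivity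
    linarith
  have hd3 : (X : ℝ) ^ 3 - (Y : ℝ) ^ 3 ≤ 3 * η * (X : ℝ) ^ 3 := by
    have h1 : ((1 - η) * (X : ℝ)) ^ 3 ≤ (Y : ℝ) ^ 3 :=
      pow_le_pow_left₀ (mul_nonneg (by linarith) (by linarith)) hY1 3
    have h2 : ((1 - η) * (X : ℝ)) ^ 3 = (1 - 3 * η + 3 * η ^ 2 - η ^ 3) * (X : ℝ) ^ 3 := by ring
    rw [h2] at h1
    have h3 : 0 ≤ (3 * η ^ 2 - η ^ 3) * (X : ℝ) ^ 3 := by
      refine mul_nonneg ?_ hXp3
      have : 3 * η ^ 2 - η ^ 3 = η ^ 2 * (3 - η) := by ring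
      rw [this]
      exact mul_nonneg (sq_nonneg _) (by linarith)
    linarith
  have bA1 : (A1.card : ℝ) * M ≤ 3 * η * (X : ℝ) ^ 2 := by linarith
  have hη2 : η * (X : ℝ) ^ 2 ≤ (X : ℝ) ^ 2 := mul_le_of_le_one_left hXp2 hη1.le
  have hη3 : η * (X : ℝ) ^ 3 ≤ (X : ℝ) ^ 3 := mul_le_of_le_one_left hXp3 hη1.le
  have bA2 : (A2.card : ℝ) * M ≤ 2 * (X : ℝ) ^ 2 := by linarith
  have bB1 : (B1.card : ℝ) * M ≤ 3 * (X : ℝ) ^ 3 := by linarith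
  have bB2 : (B2.card : ℝ) * M ≤ 4 * η * (X : ℝ) ^ 3 := by linarith
  have bB3 : (B3.card : ℝ) * M ≤ 4 * η * (X : ℝ) ^ 3 := by linarith
  have n1 : (0 : ℝ) ≤ (A1.card : ℝ) * M := by positivity
  have n2 : (0 : ℝ) ≤ (A2.card : ℝ) * M := by positivity
  have n3 : (0 : ℝ) ≤ (B1.card : ℝ) * M := by positivity
  have n4 : (0 : ℝ) ≤ (B2.card : ℝ) * M := by positivity
  have n5 : (0 : ℝ) ≤ (B3.card : ℝ) * M := by positivity
  have m1 := mul_le_mul bA1 bB1 n3 (by positivity)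
  have m2 := mul_le_mul bA2 bB2 n4 (by positivity)
  have m3 := mul_le_mul bA2 bB3 n5 (by positivity)
  calc (M : ℝ) ^ 2 * _ ≤ (M : ℝ) ^ 2 * (A1.card * B1.card + (A2.card * B2.card + A2.card * B3.card)) :=
        mul_le_mul_of_nonneg_left hc3 (by positivity)
    _ = (A1.card : ℝ) * M * (B1.card * M) + ((A2.card : ℝ) * M * (B2.card * M) +
        (A2.card : ℝ) * M * (B3.card * M)) := by ring
    _ ≤ 3 * η * (X : ℝ) ^ 2 * (3 * (X : ℝ) ^ 3) + (2 * (X : ℝ) ^ 2 * (4 * η * (X : ℝ) ^ 3) +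
        2 * (X : ℝ) ^ 2 * (4 * η * (X : ℝ) ^ 3)) := by linarith
    _ = 25 * η * (X : ℝ) ^ 5 := by ring

end Pool.Agent.H29.PR.BoxD
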